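import Pool.Agent.Helper30K9.FJ2.Ret
import Pool.Agent.R684.FP.Main

/-!
# The kernel of the retraction of a graph product is a free product

Let no two vertices outside `T` be adjacent. The kernel of the retraction of the graph product to the
graph product over `T` is the free product of the groups `m (D v) m⁻¹`, where `v` is outside `T` and `m`
runs through the cosets of the graph product over the neighbours of `v` in the graph product over `T`.
-/

set_option autoImplicit false

namespace Pool.Agent.Helper30K9.FJ2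

open Pool.Agent.Y110.FJ
open Pool.Agent.Helper30K9.FJ
open Pool.Agent.R684.FP (IsFreeProd)

section ker

variable {V : Type} (Λ : SimpleGraph V) (D : V → Type) [∀ v, Group (D v)] (T : Set V)

/-- the graph product over the neighbours of `v` in `T` -/
def Lk (v : V) : Subgroup (GT Λ D T) :=
  para (Λ.comap (Subtype.val : T → V)) (fun t : T => D t) {t | Λ.Adj (t : V) v}

/-- the index set of the factors -/
abbrev Ix : Type := Σ v : {v : V // v ∉ T}, (GT Λ D T) ⧸ (Lk Λ D T v)

/-- the factors -/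
abbrev Ex : Ix Λ D T → Type := fun i => D i.1

variable {Λ D T}

/-- the inclusion of a factor -/
abbrev oI (v : {v : V // v ∉ T}) (q : (GT Λ D T) ⧸ (Lk Λ D T v)) (a : D v) :
    Monoid.CoprodI (Ex Λ D T) :=
  Monoid.CoprodI.of (M := Ex Λ D T) (i := ⟨v, q⟩) a

theorem oI_congr {v : {v : V // v ∉ T}} {q q' : (GT Λ D T) ⧸ (Lk Λ D T v)} (h : q = q') (a : D v) :
    oI v q a = oI v q' a := by
  rw [h]

/-- the action -/
noncomputable def act (m : GT Λ D T) : Monoid.CoprodI (Ex Λ D T) →* Monoid.CoprodI (Ex Λ D T) :=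
  Monoid.CoprodI.lift fun i =>
    (Monoid.CoprodI.of (M := Ex Λ D T) (i := (⟨i.1, m • i.2⟩ : Ix Λ D T)) : D i.1 →* _)

theorem act_of (m : GT Λ D T) (v : {v : V // v ∉ T}) (q : (GT Λ D T) ⧸ (Lk Λ D T v)) (a : D v) :
    act m (oI v q a) = oI v (m • q) a := by
  rw [act]
  exact Monoid.CoprodI.lift_of _ _

theorem coprod_ext {H : Type} [Group H] {f g : Monoid.CoprodI (Ex Λ D T) →* H}
    (h : ∀ v q a, f (oI v q a) = g (oI v q a)) : f = g := by
  apply Monoid.CoprodI.ext_hom
  rintro ⟨v, q⟩
  apply MonoidHom.ext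
  intro a
  exact h v q a

theorem act_one : act (1 : GT Λ D T) = MonoidHom.id _ := by
  apply coprod_ext
  intro v q a
  rw [act_of]
  exact oI_congr (one_smul _ q) a

theorem act_mul (m m' : GT Λ D T) : act (m * m') = (act m).comp (act m') := by
  apply coprod_ext
  intro v q a
  rw [MonoidHom.comp_apply, act_of, act_of, act_of]
  exact oI_congr (mul_smul m m' q) a

variable (Λ D T)

/-- the action as a homomorphism -/
noncomputable def aut : GT Λ D T →* MulAut (Monoid.CoprodI (Ex Λ D T)) where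
  toFun m := MonoidHom.toMulEquiv (act m) (act m⁻¹)
    (by rw [← act_mul, inv_mul_cancel, act_one]) (by rw [← act_mul, mul_inv_cancel, act_one])
  map_one' := by
    apply MulEquiv.toMonoidHom_injective
    exact act_one
  map_mul' m m' := by
    apply MulEquiv.toMonoidHom_injective
    exact act_mul m m'

/-- the semidirect product -/
abbrev Wp : Type := Monoid.CoprodI (Ex Λ D T) ⋊[aut Λ D T] GT Λ D T

variable {Λ D T}

theorem aut_of (m : GT Λ D T) (v : {v : V // v ∉ T}) (q : (GT Λ D T) ⧸ (Lk Λ D T v)) (a : D v) :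
    aut Λ D T m (oI v q a) = oI v (m • q) a :=
  act_of m v q a

theorem inr_inl (m : GT Λ D T) (x : Monoid.CoprodI (Ex Λ D T)) :
    (SemidirectProduct.inr m : Wp Λ D T) * SemidirectProduct.inl x =
      SemidirectProduct.inl (aut Λ D T m x) * SemidirectProduct.inr m := by
  rw [SemidirectProduct.inl_aut, map_inv, inv_mul_cancel_right]

theorem ofT_Lk {t : T} {v : V} (h : Λ.Adj (t : V) v) (a : D t) :
    ofT (Λ := Λ) (D := D) t a ∈ Lk Λ D T v :=
  of_mem_para (Λ := Λ.comap (Subtype.val : T → V)) (D := fun t : T => D t)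
    (T := {t : T | Λ.Adj (t : V) v}) h a

theorem mk_Lk {v : {v : V // v ∉ T}} {m m' : GT Λ D T} (h : m⁻¹ * m' ∈ Lk Λ D T v) :
    (QuotientGroup.mk m : (GT Λ D T) ⧸ (Lk Λ D T v)) = QuotientGroup.mk m' :=
  QuotientGroup.eq.2 h

/-- the class of `1` -/
abbrev q1 (v : {v : V // v ∉ T}) : (GT Λ D T) ⧸ (Lk Λ D T v) := QuotientGroup.mk (1 : GT Λ D T)

theorem comm_W {t : T} {v : {v : V // v ∉ T}} (h : Λ.Adj (t : V) v) (a : D t) (b : D v) :
    (SemidirectProduct.inr (ofT (Λ := Λ) (D := D) t a) : Wp Λ D T) *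
      SemidirectProduct.inl (oI v (q1 v) b) =
    SemidirectProduct.inl (oI v (q1 v) b) *
      SemidirectProduct.inr (ofT (Λ := Λ) (D := D) t a) := by
  rw [inr_inl, aut_of]
  have h1 : ofT (Λ := Λ) (D := D) t a • q1 (Λ := Λ) (D := D) v = q1 v := by
    show (QuotientGroup.mk (ofT (Λ := Λ) (D := D) t a * 1) : (GT Λ D T) ⧸ (Lk Λ D T v)) = _
    refine (mk_Lk ?_).symm
    rw [inv_one, one_mul, mul_one]
    exact ofT_Lk h a
  rw [oI_congr h1]

open Classical in
/-- the homomorphism to the semidirect product -/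
noncomputable def Ph (hind : ∀ v w, v ∉ T → w ∉ T → ¬ Λ.Adj v w) : GrP Λ D →* Wp Λ D T :=
  glift Λ D (fun v => if h : v ∈ T then
      (SemidirectProduct.inr : GT Λ D T →* Wp Λ D T).comp
        (GrP.of (Λ.comap (Subtype.val : T → V)) (fun t : T => D t) ⟨v, h⟩)
    else (SemidirectProduct.inl : _ →* Wp Λ D T).comp
      (Monoid.CoprodI.of (M := Ex Λ D T) (i := ⟨⟨v, h⟩, q1 ⟨v, h⟩⟩))) (by
    intro v w a b h
    by_cases hv : v ∈ T
    · by_cases hw : w ∈ T
      · rw [dif_pos hv, dif_pos hw, MonoidHom.comp_apply, MonoidHom.comp_apply, ← map_mul,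
          ← map_mul]
        congr 1
        exact of_comm (Λ := Λ.comap (Subtype.val : T → V)) (D := fun t : T => D t)
          (v := ⟨v, hv⟩) (w := ⟨w, hw⟩) h a b
      · rw [dif_pos hv, dif_neg hw]
        exact comm_W (t := ⟨v, hv⟩) (v := ⟨w, hw⟩) h a b
    · by_cases hw : w ∈ T
      · rw [dif_neg hv, dif_pos hw]
        exact (comm_W (t := ⟨w, hw⟩) (v := ⟨v, hv⟩) h.symm b a).symm
      · exact absurd h (hind v w hv hw))

variable (hind : ∀ v w, v ∉ T → w ∉ T → ¬ Λ.Adj v w)

theorem Ph_mem {v : V} (hv : v ∈ T) (a : D v) : Ph hind (GrP.of Λ D v a) =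
    SemidirectProduct.inr (ofT (Λ := Λ) (D := D) ⟨v, hv⟩ a) := by
  rw [Ph, glift_of, dif_pos hv]
  rfl

theorem Ph_not {v : V} (hv : v ∉ T) (a : D v) : Ph hind (GrP.of Λ D v a) =
    SemidirectProduct.inl (oI ⟨v, hv⟩ (q1 ⟨v, hv⟩) a) := by
  rw [Ph, glift_of, dif_neg hv]
  rfl

theorem Ph_ss (m : GT Λ D T) : Ph hind (ss Λ D T m) = SemidirectProduct.inr m := by
  have h : (Ph hind).comp (ss Λ D T) = (SemidirectProduct.inr : GT Λ D T →* Wp Λ D T) := by
    apply ghom_ext
    intro t a
    show Ph hind (ss Λ D T (ofT (Λ := Λ) (D := D) t a)) =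
      SemidirectProduct.inr (ofT (Λ := Λ) (D := D) t a)
    rw [ss_of, Ph_mem hind t.2]
  exact DFunLike.congr_fun h m

theorem Ph_right (x : GrP Λ D) : (Ph hind x).right = rr Λ D T x := by
  have h : (SemidirectProduct.rightHom.comp (Ph hind)) = rr Λ D T := by
    apply ghom_ext
    intro v a
    show (Ph hind (GrP.of Λ D v a)).right = rr Λ D T (GrP.of Λ D v a)
    by_cases hv : v ∈ T
    · rw [Ph_mem hind hv, rr_mem hv]
      rfl
    · rw [Ph_not hind hv, rr_not hv]
      rfl
  exact DFunLike.congr_fun h x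

/-- the inclusion of the factors in the graph product -/
noncomputable def io (i : Ix Λ D T) : D i.1 →* GrP Λ D :=
  (MulAut.conj (ss Λ D T (Quotient.out i.2))).toMonoidHom.comp (GrP.of Λ D i.1)

theorem Lk_comm {v : V} {l : GT Λ D T} (hl : l ∈ Lk Λ D T v) (a : D v) :
    ss Λ D T l * GrP.of Λ D v a * (ss Λ D T l)⁻¹ = GrP.of Λ D v a := by
  have h1 : Lk Λ D T v ≤ (Subgroup.centralizer {GrP.of Λ D v a}).comap (ss Λ D T) := by
    refine para_le fun t ht b => ?_
    rw [Subgroup.mem_comap, Subgroup.mem_centralizer_singleton_iff]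
    show ss Λ D T (ofT (Λ := Λ) (D := D) t b) * _ = _ * ss Λ D T (ofT (Λ := Λ) (D := D) t b)
    rw [ss_of]
    exact of_comm ht b a
  have h2 := h1 hl
  rw [Subgroup.mem_comap, Subgroup.mem_centralizer_singleton_iff] at h2
  rw [h2, mul_inv_cancel_right]

/-- the conjugates of the vertex groups outside `T` by elements of the graph product over `T` -/
theorem io_mk (v : {v : V // v ∉ T}) (m : GT Λ D T) (a : D v) :
    io ⟨v, QuotientGroup.mk m⟩ a = ss Λ D T m * GrP.of Λ D v a * (ss Λ D T m)⁻¹ := by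
  obtain ⟨r, hr⟩ : ∃ r : GT Λ D T,
    r = Quotient.out (QuotientGroup.mk m : (GT Λ D T) ⧸ (Lk Λ D T v)) := ⟨_, rfl⟩
  have h1 : (QuotientGroup.mk r : (GT Λ D T) ⧸ (Lk Λ D T v)) = QuotientGroup.mk m := by
    rw [hr]
    exact Quotient.out_eq _
  have h2 : r⁻¹ * m ∈ Lk Λ D T v := QuotientGroup.eq.1 h1
  have h3 := Lk_comm h2 a
  have h4 : io ⟨v, QuotientGroup.mk m⟩ a = ss Λ D T r * GrP.of Λ D v a * (ss Λ D T r)⁻¹ := by
    rw [hr]
    rfl
  rw [h4]
  conv_lhs => rw [← h3]
  simp only [map_mul, map_inv]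
  group

theorem Ph_io (v : {v : V // v ∉ T}) (q : (GT Λ D T) ⧸ (Lk Λ D T v)) (a : D v) :
    Ph hind (io ⟨v, q⟩ a) = SemidirectProduct.inl (oI v q a) := by
  obtain ⟨m, rfl⟩ := QuotientGroup.mk_surjective q
  rw [io_mk, map_mul, map_mul, map_inv, Ph_ss, Ph_not hind v.2, inr_inl, mul_inv_cancel_right,
    aut_of]
  refine congrArg _ (oI_congr ?_ a)
  show (QuotientGroup.mk (m * 1) : (GT Λ D T) ⧸ (Lk Λ D T v)) = _
  rw [mul_one]

/-- the homomorphism from the free product -/
noncomputable def li : Monoid.CoprodI (Ex Λ D T) →* GrP Λ D := Monoid.CoprodI.lift io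

theorem li_of (v : {v : V // v ∉ T}) (q : (GT Λ D T) ⧸ (Lk Λ D T v)) (a : D v) :
    li (oI v q a) = io ⟨v, q⟩ a := by
  rw [li]
  exact Monoid.CoprodI.lift_of _ _

theorem Ph_li (x : Monoid.CoprodI (Ex Λ D T)) : Ph hind (li x) = SemidirectProduct.inl x := by
  have h : (Ph hind).comp li = (SemidirectProduct.inl : _ →* Wp Λ D T) := by
    apply coprod_ext
    intro v q a
    rw [MonoidHom.comp_apply, li_of, Ph_io]
  exact DFunLike.congr_fun h x

/-- the homomorphism from the semidirect product -/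
noncomputable def Ps : Wp Λ D T →* GrP Λ D :=
  SemidirectProduct.lift li (ss Λ D T) (by
    intro m
    apply coprod_ext
    intro v q a
    obtain ⟨m', rfl⟩ := QuotientGroup.mk_surjective q
    show li (aut Λ D T m (oI v _ a)) = ss Λ D T m * li (oI v _ a) * (ss Λ D T m)⁻¹
    rw [aut_of]
    have h1 : m • (QuotientGroup.mk m' : (GT Λ D T) ⧸ (Lk Λ D T v)) = QuotientGroup.mk (m * m') := rfl
    rw [oI_congr h1, li_of, li_of, io_mk, io_mk]
    simp only [map_mul]
    group)

theorem Ps_Ph (x : GrP Λ D) : Ps (Ph hind x) = x := by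
  have h : (Ps (Λ := Λ) (D := D) (T := T)).comp (Ph hind) = MonoidHom.id _ := by
    apply ghom_ext
    intro v a
    rw [MonoidHom.comp_apply, MonoidHom.id_apply]
    by_cases hv : v ∈ T
    · rw [Ph_mem hind hv, Ps, SemidirectProduct.lift_inr, ss_of]
    · rw [Ph_not hind hv, Ps, SemidirectProduct.lift_inl, li_of, io_mk, map_one, one_mul, inv_one,
        mul_one]
  exact DFunLike.congr_fun h x

include hind in
theorem ker_eq : (rr Λ D T).ker = (li (Λ := Λ) (D := D) (T := T)).range := by
  ext x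
  constructor
  · intro hx
    have h1 : (Ph hind x).right = 1 := by rw [Ph_right]; exact hx
    refine ⟨(Ph hind x).left, ?_⟩
    have h2 : Ph hind x = SemidirectProduct.inl (Ph hind x).left := by
      conv_lhs => rw [← SemidirectProduct.inl_left_mul_inr_right (Ph hind x), h1, map_one, mul_one]
    have h3 := Ps_Ph hind x
    rw [h2, Ps, SemidirectProduct.lift_inl] at h3
    exact h3
  · rintro ⟨y, rfl⟩
    rw [MonoidHom.mem_ker, ← Ph_right hind, Ph_li]
    rfl

include hind in
theorem li_injective : Function.Injective (li (Λ := Λ) (D := D) (T := T)) := by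
  intro x y hxy
  have h1 := congrArg (Ph hind) hxy
  rw [Ph_li, Ph_li] at h1
  exact SemidirectProduct.inl_injective h1

include hind in
theorem io_injective (i : Ix Λ D T) : Function.Injective (io i) := by
  obtain ⟨v, q⟩ := i
  intro a b hab
  have h1 : li (oI v q a) = li (oI v q b) := by rw [li_of, li_of]; exact hab
  exact Monoid.CoprodI.of_injective (M := Ex Λ D T) ⟨v, q⟩ (li_injective hind h1)

/-- the factors in a larger group -/
noncomputable def Bj {H : Type} [Group H] (j : GrP Λ D →* H) (i : Ix Λ D T) : Subgroup H :=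
  (j.comp (io i)).range

/-- the factors as groups -/
abbrev BT {H : Type} [Group H] (j : GrP Λ D →* H) : Ix Λ D T → Type := fun i => ↥(Bj j i)

include hind in
theorem free_prod {H : Type} [Group H] (j : GrP Λ D →* H) (hj : Function.Injective j) :
    IsFreeProd ((rr Λ D T).ker.map j) (Bj (T := T) j) := by
  refine ⟨?_, ?_⟩
  · rw [ker_eq hind, MonoidHom.map_range, li]
    have h1 : (j.comp (Monoid.CoprodI.lift (io (Λ := Λ) (D := D) (T := T)))) =
        Monoid.CoprodI.lift (fun i => j.comp (io i)) := by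
      apply coprod_ext
      intro v q a
      rw [MonoidHom.comp_apply]
      erw [Monoid.CoprodI.lift_of, Monoid.CoprodI.lift_of]
      rfl
    rw [h1, Monoid.CoprodI.range_eq_iSup]
    rfl
  · let e : ∀ i : Ix Λ D T, D i.1 ≃* Bj (T := T) j i := fun i =>
      MonoidHom.ofInjective (f := j.comp (io i)) (hj.comp (io_injective hind i))
    let κ : Monoid.CoprodI (BT (T := T) j) →* Monoid.CoprodI (Ex Λ D T) :=
      Monoid.CoprodI.lift fun i => (Monoid.CoprodI.of (M := Ex Λ D T) (i := i)).comp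
        (e i).symm.toMonoidHom
    let κ' : Monoid.CoprodI (Ex Λ D T) →* Monoid.CoprodI (BT (T := T) j) :=
      Monoid.CoprodI.lift fun i => (Monoid.CoprodI.of (M := BT (T := T) j) (i := i)).comp
        (e i).toMonoidHom
    have h1 : κ'.comp κ = MonoidHom.id _ := by
      apply Monoid.CoprodI.ext_hom
      intro i
      apply MonoidHom.ext
      intro a
      show κ' (κ (Monoid.CoprodI.of a)) = Monoid.CoprodI.of a
      simp only [κ]
      rw [Monoid.CoprodI.lift_of]
      simp only [κ', MonoidHom.comp_apply]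
      rw [Monoid.CoprodI.lift_of]
      show Monoid.CoprodI.of (M := BT (T := T) j) (i := i) ((e i) ((e i).symm a)) = _
      rw [MulEquiv.apply_symm_apply]
    have h2 : Monoid.CoprodI.lift (fun i => (Bj (T := T) j i).subtype) = (j.comp li).comp κ := by
      apply Monoid.CoprodI.ext_hom
      intro i
      apply MonoidHom.ext
      intro a
      rw [MonoidHom.comp_apply, Monoid.CoprodI.lift_of]
      show (a : H) = j (li (κ (Monoid.CoprodI.of a)))
      simp only [κ]
      rw [Monoid.CoprodI.lift_of]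
      obtain ⟨b, rfl⟩ := (e i).surjective a
      rw [MonoidHom.comp_apply]
      show ((e i b : Bj (T := T) j i) : H) = j (li (oI i.1 i.2 ((e i).symm (e i b))))
      rw [MulEquiv.symm_apply_apply, li_of]
      rfl
    rw [h2]
    refine Function.Injective.comp (g := j.comp li) (hj.comp (li_injective hind)) ?_
    exact Function.LeftInverse.injective (g := κ') (DFunLike.congr_fun h1)

end ker

end Pool.Agent.Helper30K9.FJ2
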