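import Pool.Agent.Helper30K9.FJ2.Step
import Pool.Agent.Helper30K9.FJ.Fin

/-!
# Kernels which are graph products with vertex groups permuted up to conjugacy
-/

set_option autoImplicit false

namespace Pool.Agent.Helper30K9.FJ2

open Pool.Agent.Y110.FJ
open Pool.Agent.Y462.SS (Closed)
open Pool.Agent.R630.FJ (MT crit)
open Pool.Agent.Helper30K9.FJ
open Pool.Agent.R684.FP (FbC)

section colour

variable {C : ∀ (G : Type) [Group G], Prop}

theorem colour (hC : ClosedE C) (hF : FbC C) (n : ℕ) : ∀ (V : Type) (Λ : SimpleGraph V)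
    (D : V → Type) [∀ v, Group (D v)] (σ : MulAut (GrP Λ D)) (π : Equiv.Perm V) (c : V → ℕ),
    (∀ v, c v < n) → (∀ v, c (π v) = c v) → (∀ v w, Λ.Adj v w → c v ≠ c w) → CP σ π →
    HC C σ π → (∀ v, C (D v)) → C (MT σ) := by
  induction n with
  | zero =>
    intro V Λ D _ σ π c hc _ _ _ _ _
    have h1 : ∀ x : GrP Λ D, x = 1 := by
      intro x
      have h2 : x ∈ para Λ D Set.univ := by rw [para_univ]; exact Subgroup.mem_top x
      have h3 : para Λ D Set.univ ≤ ⊥ := para_le fun v _ => absurd (hc v) (Nat.not_lt_zero _)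
      exact Subgroup.mem_bot.1 (h3 h2)
    refine hC.base.of_injective _ _ (SemidirectProduct.rightHom : MT σ →* Multiplicative ℤ) ?_
      hC.base.int
    rw [injective_iff_map_eq_one]
    intro x hx
    exact SemidirectProduct.ext (h1 _) hx
  | succ n ih =>
    intro V Λ D _ σ π c hc hπ hadj hcp hH hD
    let T : Set V := {v | c v < n}
    have hT : ∀ v, π v ∈ T ↔ v ∈ T := by
      intro v
      show c (π v) < n ↔ c v < n
      rw [hπ]
    have hn : ∀ v, v ∉ T → c v = n := by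
      intro v hv
      have h1 : ¬ c v < n := hv
      have h2 := hc v
      omega
    refine step (T := T) hcp hT hC hF hH hD (fun v w hv hw h => hadj v w h ?_) ?_
    · rw [hn v hv, hn w hw]
    · exact ih T (Λ.comap (Subtype.val : T → V)) (fun t : T => D t) (sT hcp hT)
        (π.subtypePerm hT) (fun t => c t) (fun t => t.2) (fun t => hπ t)
        (fun t s h => hadj t s h) (CP_T hcp hT (fun t => rfl)) (HC_T hcp hT (fun t => rfl) hH)
        (fun t => hD t)

theorem colour' (hC : ClosedE C) (hF : FbC C) {ι : Type} [Finite ι] {V : Type} {Λ : SimpleGraph V}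
    {D : V → Type} [∀ v, Group (D v)] {σ : MulAut (GrP Λ D)} {π : Equiv.Perm V} (c : V → ι)
    (h1 : ∀ v, c (π v) = c v) (h2 : ∀ v w, Λ.Adj v w → c v ≠ c w) (hcp : CP σ π)
    (hH : HC C σ π) (hD : ∀ v, C (D v)) : C (MT σ) := by
  obtain ⟨n, ⟨e⟩⟩ := Finite.exists_equiv_fin ι
  refine colour hC hF n V Λ D σ π (fun v => (e (c v) : ℕ)) (fun v => (e (c v)).2) (fun v => ?_)
    (fun v w h h' => h2 v w h ?_) hcp hH hD
  · show ((e (c (π v)) : Fin n) : ℕ) = e (c v)
    rw [h1]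
  · exact e.injective (Fin.ext h')

/-- finitely many orbits -/
theorem orbits (hC : ClosedE C) (hF : FbC C) {V : Type} {Λ : SimpleGraph V}
    {D : V → Type} [∀ v, Group (D v)] {σ : MulAut (GrP Λ D)} {π : Equiv.Perm V} (F : Finset V)
    (hFV : ∀ v, ∃ f ∈ F, ∃ n : ℤ, (π ^ n) f = v) (hadj : ∀ v w, Λ.Adj v w → Λ.Adj (π v) (π w))
    (hadj' : ∀ v w, Λ.Adj v w → Λ.Adj (π⁻¹ v) (π⁻¹ w))
    (hind : ∀ v, ∃ k : ℕ, 0 < k ∧ ∀ j : ℤ, ¬ Λ.Adj ((π ^ ((k : ℤ) * j)) v) v) (hcp : CP σ π)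
    (hH : HC C σ π) (hD : ∀ v, C (D v)) : C (MT σ) := by
  classical
  choose k hk hk' using hind
  obtain ⟨K, hK⟩ : ∃ K : ℕ, K = ∏ f ∈ F, k f := ⟨_, rfl⟩
  have hK0 : 0 < K := by rw [hK]; exact Finset.prod_pos fun f _ => hk f
  have hadjz : ∀ (n : ℤ) v w, Λ.Adj v w → Λ.Adj ((π ^ n) v) ((π ^ n) w) := by
    intro n
    induction n using Int.induction_on with
    | zero => intro v w h; exact h
    | succ n ih =>
      intro v w h
      rw [zpow_add, zpow_one, Equiv.Perm.mul_apply, Equiv.Perm.mul_apply]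
      exact ih _ _ (hadj v w h)
    | pred n ih =>
      intro v w h
      rw [sub_eq_add_neg, zpow_add, zpow_neg_one, Equiv.Perm.mul_apply, Equiv.Perm.mul_apply]
      exact ih _ _ (hadj' v w h)
  have hKK : ∀ (v : V) (j : ℤ), ¬ Λ.Adj ((π ^ ((K : ℤ) * j)) v) v := by
    intro v j h
    obtain ⟨f, hf, n, rfl⟩ := hFV v
    obtain ⟨l, hl⟩ : k f ∣ K := by rw [hK]; exact Finset.dvd_prod_of_mem k hf
    refine hk' f (l * j) ?_
    have h1 := hadjz (-n) _ _ h
    rw [← Equiv.Perm.mul_apply, ← Equiv.Perm.mul_apply, ← Equiv.Perm.mul_apply, ← zpow_add,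
      ← zpow_add, ← zpow_add, neg_add_cancel, zpow_zero, Equiv.Perm.one_apply] at h1
    have h2 : -n + (K : ℤ) * j + n = (k f : ℤ) * (l * j) := by
      rw [hl]
      push_cast
      ring
    rwa [h2] at h1
  refine C_MT_pow hC.base σ hK0 ?_
  have hfin : Finite (Quotient (Equiv.Perm.SameCycle.setoid (π ^ K))) := by
    refine Finite.of_surjective (fun p : F × Fin K =>
      (Quotient.mk _ ((π ^ (p.2 : ℕ)) (p.1 : V)) : Quotient (Equiv.Perm.SameCycle.setoid (π ^ K)))) ?_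
    intro q
    induction q using Quotient.inductionOn with
    | h v =>
    obtain ⟨f, hf, n, rfl⟩ := hFV v
    have hKz : (0 : ℤ) < K := by exact_mod_cast hK0
    have h1 := Int.emod_nonneg n hKz.ne'
    have h2 := Int.emod_lt_of_pos n hKz
    refine ⟨(⟨f, hf⟩, ⟨(n % K).toNat, by omega⟩), ?_⟩
    refine Quotient.sound ?_
    show (π ^ K).SameCycle _ _
    refine ⟨n / K, ?_⟩
    show ((π ^ K) ^ (n / K)) ((π ^ ((n % K).toNat)) f) = (π ^ n) f
    rw [← zpow_natCast π ((n % K).toNat), Int.toNat_of_nonneg h1, ← zpow_natCast π K, ← zpow_mul,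
      ← Equiv.Perm.mul_apply, ← zpow_add, Int.mul_ediv_add_emod]
  refine colour' hC hF (σ := σ ^ K) (π := π ^ K)
    (c := fun v => (Quotient.mk _ v : Quotient (Equiv.Perm.SameCycle.setoid (π ^ K)))) ?_ ?_
    (CP_pow hcp K) (HC_pow hH hK0) hD
  · intro v
    refine Quotient.sound ?_
    show (π ^ K).SameCycle _ _
    exact ⟨-1, by
      rw [zpow_neg_one]
      exact (π ^ K).symm_apply_apply v⟩
  · intro v w h h1
    have h2 : (π ^ K).SameCycle v w := Quotient.exact h1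
    obtain ⟨j, hj⟩ := h2
    refine hKK v j ?_
    rw [zpow_mul, zpow_natCast, hj]
    exact h.symm

end colour

section main

variable {C : ∀ (G : Type) [Group G], Prop} {G V : Type} [Group G] [MulAction G V]
  {Λ : SimpleGraph V} {N : Subgroup G} {A : V → Subgroup G}

omit [MulAction G V] in
/-- an internal graph product is isomorphic to the graph product -/
theorem exists_equiv (hA : IsGraphProduct Λ N A) :
    ∃ e : N ≃* GrP Λ (fun v => A v), ∀ (v : V) (a : G) (ha : a ∈ A v) (haN : a ∈ N),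
      e ⟨a, haN⟩ = GrP.of Λ (fun v => A v) v ⟨a, ha⟩ := by
  obtain ⟨h, hh⟩ := hA.univ (GrP Λ (fun v => A v)) (fun v => GrP.of Λ (fun v => A v) v)
    (fun v w hvw a b => of_comm (Λ := Λ) (D := fun v => A v) hvw a b)
  have hAN : ∀ v, A v ≤ N := fun v => hA.sup ▸ le_iSup A v
  let j : GrP Λ (fun v => A v) →* N := glift Λ (fun v => A v)
    (fun v => Subgroup.inclusion (hAN v)) (fun v w a b hvw => by
      apply Subtype.ext
      exact hA.comm v w hvw a a.2 b b.2)
  have hj : ∀ v (a : A v), j (GrP.of Λ (fun v => A v) v a) = ⟨a, hAN v a.2⟩ := by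
    intro v a
    simp only [j]
    rw [glift_of]
    rfl
  have h1 : h.comp j = MonoidHom.id _ := by
    apply ghom_ext
    intro v a
    rw [MonoidHom.comp_apply, hj, hh v a a.2]
    rfl
  have h2 : j.comp h = MonoidHom.id _ := by
    apply MonoidHom.ext
    intro x
    have h3 : N ≤ ((j.comp h).eqLocus (MonoidHom.id _)).map N.subtype := by
      conv_lhs => rw [← hA.sup]
      refine iSup_le fun v a ha => ?_
      refine ⟨⟨a, hAN v ha⟩, ?_, rfl⟩
      show j (h ⟨a, hAN v ha⟩) = ⟨a, hAN v ha⟩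
      rw [hh v a ha, hj]
    obtain ⟨y, hy, hyx⟩ := h3 x.2
    have h4 : y = x := Subtype.ext hyx
    rw [← h4]
    exact hy
  exact ⟨MonoidHom.toMulEquiv h j h2 h1, hh⟩

theorem main (hC : ClosedE C) (hF : FbC C) [N.Normal] (hQ : C (G ⧸ N)) (hA : IsGraphProduct Λ N A)
    (hadj : ∀ (g : G) (v w : V), Λ.Adj v w → Λ.Adj (g • v) (g • w))
    (hind : ∀ (g : G) (v : V), ∃ k : ℕ, 0 < k ∧ ∀ j : ℤ, ¬ Λ.Adj (g ^ ((k : ℤ) * j) • v) v)
    (hconj : ∀ (g : G) (v : V), ∃ n ∈ N, ∀ x, x ∈ A v ↔ n * (g * x * g⁻¹) * n⁻¹ ∈ A (g • v))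
    (hcyc : ∀ (v : V) (h : G), (∀ x, x ∈ A v ↔ h * x * h⁻¹ ∈ A v) →
      C ↥(A v ⊔ Subgroup.zpowers h)) : C G := by
  classical
  have hAN : ∀ v, A v ≤ N := fun v => hA.sup ▸ le_iSup A v
  obtain ⟨e, he⟩ := exists_equiv hA
  have hD : ∀ v, C (A v) := by
    intro v
    have h1 := hcyc v 1 (fun x => by rw [one_mul, inv_one, mul_one])
    exact Pool.Agent.R941.FJ.C_le hC.base le_sup_left h1
  refine crit C hC G N hQ fun g E hE hEN => ?_
  have hE2 : E ∪ (fun x => g * x * g⁻¹) '' E ⊆ N := by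
    rintro x (hx | ⟨y, hy, rfl⟩)
    · exact hEN hx
    · exact ‹N.Normal›.conj_mem y (hEN hy) g
  obtain ⟨F, hFE⟩ := exists_fin (G := G) A (hE.union (hE.image (fun x => g * x * g⁻¹)))
    (by rw [hA.sup]; exact hE2)
  -- the automorphism
  let σ : MulAut (GrP Λ (fun v => A v)) :=
    (e.symm.trans (MulAut.conjNormal g : MulAut N)).trans e
  let π : Equiv.Perm V := MulAction.toPermHom G V g
  have hσ : ∀ x : N, σ (e x) = e (MulAut.conjNormal g x) := by
    intro x
    show e (MulAut.conjNormal g (e.symm (e x))) = _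
    rw [MulEquiv.symm_apply_apply]
  have hσk : ∀ (k : ℕ) (x : N), (σ ^ k) (e x) = e (MulAut.conjNormal (g ^ k) x) := by
    intro k
    induction k with
    | zero => intro x; simp
    | succ k ih =>
      intro x
      rw [pow_succ, MulAut.mul_apply, hσ, ih, pow_succ, map_mul, MulAut.mul_apply]
  have heof : ∀ (v : V) (a : A v), GrP.of Λ (fun v => A v) v a = e ⟨a, hAN v a.2⟩ :=
    fun v a => (he v a a.2 _).symm
  have hcp : CP σ π := by
    rintro v w rfl
    obtain ⟨n, hn, h1⟩ := hconj g v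
    let t : A v ≃* A (g • v) :=
      { toFun := fun x => ⟨n * (g * x * g⁻¹) * n⁻¹, (h1 x).1 x.2⟩
        invFun := fun y => ⟨g⁻¹ * (n⁻¹ * y * n) * g, (h1 _).2 (by
          have : n * (g * (g⁻¹ * (n⁻¹ * (y : G) * n) * g) * g⁻¹) * n⁻¹ = y := by group
          rw [this]
          exact y.2)⟩
        left_inv := fun x => by
          apply Subtype.ext
          show g⁻¹ * (n⁻¹ * (n * (g * x * g⁻¹) * n⁻¹) * n) * g = (x : G)
          group
        right_inv := fun y => by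
          apply Subtype.ext
          show n * (g * (g⁻¹ * (n⁻¹ * (y : G) * n) * g) * g⁻¹) * n⁻¹ = (y : G)
          group
        map_mul' := fun x y => by
          apply Subtype.ext
          show n * (g * (x * y) * g⁻¹) * n⁻¹ = n * (g * x * g⁻¹) * n⁻¹ * (n * (g * y * g⁻¹) * n⁻¹)
          group }
    refine ⟨(e ⟨n, hn⟩)⁻¹, t, fun a => ?_⟩
    show σ (GrP.of Λ (fun v => A v) v a) =
      (e ⟨n, hn⟩)⁻¹ * GrP.of Λ (fun v => A v) (g • v) (t a) * ((e ⟨n, hn⟩)⁻¹)⁻¹
    rw [heof, heof, hσ, ← map_inv, ← map_inv, ← map_mul, ← map_mul]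
    congr 1
    apply Subtype.ext
    show g * a * g⁻¹ = n⁻¹ * (n * (g * a * g⁻¹) * n⁻¹) * n⁻¹⁻¹
    group
  have hπk : ∀ (k : ℤ) (v : V), (π ^ k) v = g ^ k • v := by
    intro k v
    show ((MulAction.toPermHom G V g) ^ k) v = _
    rw [← map_zpow]
    rfl
  have hH : HC C σ π := by
    intro v k hk _ t c htc
    obtain ⟨n, hn⟩ : ∃ n, n = e.symm c := ⟨_, rfl⟩
    have hc : c = e n := by rw [hn, MulEquiv.apply_symm_apply]
    have h1 : ∀ a : A v, ((t a : A v) : G) = ((n : G)⁻¹ * g ^ k) * a * ((n : G)⁻¹ * g ^ k)⁻¹ := by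
      intro a
      have h2 := htc a
      rw [heof, heof, hσk, hc, ← map_inv, ← map_mul, ← map_mul] at h2
      have h3 := congrArg (fun z : N => (z : G)) (e.injective h2)
      have h4 : g ^ k * (a : G) * (g ^ k)⁻¹ = n * (t a : A v) * (n : G)⁻¹ := h3
      have h5 : ((t a : A v) : G) = (n : G)⁻¹ * (n * (t a : A v) * (n : G)⁻¹) * n := by group
      rw [h5, ← h4]
      group
    refine C_conj hC.base t h1 (hcyc v _ fun x => ⟨fun hx => ?_, fun hx => ?_⟩)
    · rw [← h1 ⟨x, hx⟩]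
      exact (t ⟨x, hx⟩).2
    · have h2 := h1 (t.symm ⟨_, hx⟩)
      rw [MulEquiv.apply_symm_apply] at h2
      have h3 : x = ((t.symm ⟨_, hx⟩ : A v) : G) := mul_left_cancel (mul_right_cancel h2)
      rw [h3]
      exact (t.symm ⟨_, hx⟩).2
  -- the invariant set of vertices
  let T : Set V := {v | ∃ f ∈ F, ∃ n : ℤ, (π ^ n) f = v}
  have hT : ∀ v, π v ∈ T ↔ v ∈ T := by
    intro v
    constructor
    · rintro ⟨f, hf, n, hn⟩
      refine ⟨f, hf, -1 + n, ?_⟩
      rw [zpow_add, Equiv.Perm.mul_apply, hn, zpow_neg_one]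
      exact π.symm_apply_apply v
    · rintro ⟨f, hf, n, hn⟩
      refine ⟨f, hf, 1 + n, ?_⟩
      rw [zpow_add, Equiv.Perm.mul_apply, hn, zpow_one]
  have hFT : ∀ v ∈ F, v ∈ T := fun v hv => ⟨v, hv, 0, rfl⟩
  have hpz : ∀ (n : ℤ) (t : T), (((π.subtypePerm hT ^ n) t : T) : V) = (π ^ n) t := by
    intro n t
    induction n using Int.induction_on generalizing t with
    | zero => rfl
    | succ n ih =>
      rw [zpow_add, zpow_one, Equiv.Perm.mul_apply, zpow_add, zpow_one, Equiv.Perm.mul_apply, ih]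
      rfl
    | pred n ih =>
      rw [sub_eq_add_neg, zpow_add, zpow_neg_one, Equiv.Perm.mul_apply, zpow_add, zpow_neg_one,
        Equiv.Perm.mul_apply, ih]
      rfl
  have hCT : C (MT (sT hcp hT)) := by
    refine orbits hC hF (π := π.subtypePerm hT) (F.subtype (fun v => v ∈ T)) ?_ ?_ ?_ ?_
      (CP_T hcp hT (fun t => rfl)) (HC_T hcp hT (fun t => rfl) hH) (fun t => hD t)
    · rintro ⟨v, f, hf, n, hn⟩
      refine ⟨⟨f, hFT f hf⟩, Finset.mem_subtype.2 hf, n, ?_⟩
      apply Subtype.ext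
      rw [hpz]
      exact hn
    · intro v w h
      exact hadj g v w h
    · intro v w h
      exact hadj g⁻¹ v w h
    · intro v
      obtain ⟨k, hk, h1⟩ := hind g v
      refine ⟨k, hk, fun j h => h1 j ?_⟩
      have h2 : Λ.Adj (((π.subtypePerm hT ^ ((k : ℤ) * j)) v : T) : V) v := h
      rw [hpz, hπk] at h2
      exact h2
  -- the realization
  have hcl : Subgroup.closure (E ∪ (fun x => g * x * g⁻¹) '' E) ≤ ⨆ v ∈ F, A v :=
    (Subgroup.closure_le _).2 hFE
  have hFN : (⨆ v ∈ F, A v) ≤ N := iSup₂_le fun v _ => hAN v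
  have hfix : ∀ x (hx : x ∈ (⨆ v ∈ F, A v : Subgroup G)),
      ss Λ (fun v => A v) T (rr Λ (fun v => A v) T (e ⟨x, hFN hx⟩)) = e ⟨x, hFN hx⟩ := by
    have h1 : (⨆ v ∈ F, A v : Subgroup G) ≤
        (((((ss Λ (fun v => A v) T).comp (rr Λ (fun v => A v) T)).comp e.toMonoidHom)).eqLocus
          e.toMonoidHom).map N.subtype := by
      refine iSup₂_le fun v hv x hx => ?_
      refine ⟨⟨x, hAN v hx⟩, ?_, rfl⟩
      show ss Λ (fun v => A v) T (rr Λ (fun v => A v) T (e ⟨x, hAN v hx⟩)) = e ⟨x, hAN v hx⟩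
      rw [he v x hx, rr_mem (hFT v hv), ss_of]
    intro x hx
    obtain ⟨y, hy, hyx⟩ := h1 hx
    have h2 : y = ⟨x, hFN hx⟩ := Subtype.ext hyx
    rw [← h2]
    exact hy
  have hle := hcl.trans hFN
  refine ⟨MT (sT hcp hT), inferInstance, (SemidirectProduct.inl).comp
    ((rr Λ (fun v => A v) T).comp (e.toMonoidHom.comp (Subgroup.inclusion hle))),
    SemidirectProduct.inr (Multiplicative.ofAdd (1 : ℤ)), hCT, ?_, ?_⟩
  · refine SemidirectProduct.inl_injective.comp ?_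
    intro x y hxy
    have h1 := congrArg (ss Λ (fun v => A v) T) hxy
    have h2 := hfix x (hcl x.2)
    have h3 := hfix y (hcl y.2)
    have h4 : e ⟨x, hFN (hcl x.2)⟩ = e ⟨y, hFN (hcl y.2)⟩ := h2.symm.trans (h1.trans h3)
    have h5 := congrArg (fun z : N => (z : G)) (e.injective h4)
    exact Subtype.ext h5
  · rintro ⟨x, hx⟩ ⟨y, hy⟩ hxE hyx
    have hyx' : y = g * x * g⁻¹ := hyx
    subst hyx'
    have h2 : rr Λ (fun v => A v) T (e ⟨g * x * g⁻¹, hle hy⟩) =
        sT hcp hT (rr Λ (fun v => A v) T (e ⟨x, hle hx⟩)) := by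
      rw [sT_rr, hσ]
      rfl
    have h3 := MT_conj (sT hcp hT) (rr Λ (fun v => A v) T (e ⟨x, hle hx⟩))
    rw [← h2] at h3
    exact h3

end main

end Pool.Agent.Helper30K9.FJ2
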