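import Pool.Agent.Helper30K9.FJ2.Ret
import Pool.Agent.R684.FP.Main

/-!
# Restriction to invariant sets of vertices; mapping tori and cyclic extensions
-/

set_option autoImplicit false

namespace Pool.Agent.Helper30K9.FJ2

open Pool.Agent.Y110.FJ
open Pool.Agent.Y462.SS (Closed)
open Pool.Agent.R630.FJ (MT mt_mem)
open Pool.Agent.Helper30K9.FJ

section res

variable {V : Type} {Λ : SimpleGraph V} {D : V → Type} [∀ v, Group (D v)] {T : Set V}
  {σ : MulAut (GrP Λ D)} {π : Equiv.Perm V}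

theorem sT_pow (h : CP σ π) (hT : ∀ v, π v ∈ T ↔ v ∈ T) (k : ℕ) (x : GrP Λ D) :
    (sT h hT ^ k) (rr Λ D T x) = rr Λ D T ((σ ^ k) x) := by
  induction k generalizing x with
  | zero => rfl
  | succ k ih => rw [pow_succ, pow_succ, MulAut.mul_apply, MulAut.mul_apply, sT_rr, ih]

theorem CP_T (h : CP σ π) (hT : ∀ v, π v ∈ T ↔ v ∈ T) {π' : Equiv.Perm T}
    (hπ : ∀ t : T, ((π' t : T) : V) = π t) : CP (sT h hT) π' := by
  intro v w hvw
  obtain ⟨c, t, h1⟩ := h v w (by rw [← hπ, hvw])
  refine ⟨rr Λ D T c, t, fun a => ?_⟩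
  have h2 := sT_rr h hT (GrP.of Λ D v a)
  rw [rr_mem v.2, h1, map_mul, map_mul, map_inv, rr_mem w.2] at h2
  exact h2

theorem pow_T {π' : Equiv.Perm T} (hπ : ∀ t : T, ((π' t : T) : V) = π t) (k : ℕ) (t : T) :
    (((π' ^ k) t : T) : V) = (π ^ k) t := by
  induction k generalizing t with
  | zero => rfl
  | succ k ih => rw [pow_succ, pow_succ, Equiv.Perm.mul_apply, Equiv.Perm.mul_apply, ih, hπ]

theorem HC_T {C : ∀ (G : Type) [Group G], Prop} (h : CP σ π) (hT : ∀ v, π v ∈ T ↔ v ∈ T)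
    {π' : Equiv.Perm T} (hπ : ∀ t : T, ((π' t : T) : V) = π t) (hH : HC C σ π) :
    HC C (sT h hT) π' := by
  intro v k hk hv t c htc
  have hv' : (π ^ k) (v : V) = v := by rw [← pow_T hπ, hv]
  obtain ⟨c1, t1, h1⟩ := CP_pow h k v v hv'
  obtain ⟨q, hq⟩ : ∃ q, q = (prv _ (fun t : T => D t) v (rr Λ D T c1))⁻¹ *
    prv _ (fun t : T => D t) v c := ⟨_, rfl⟩
  have h3 : ∀ a, t1 a = q * t a * q⁻¹ := by
    intro a
    have h2 := sT_pow h hT k (GrP.of Λ D v a)
    rw [rr_mem v.2, h1, map_mul, map_mul, map_inv, rr_mem v.2] at h2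
    have h4 := htc a
    have h5 : c * ofT (Λ := Λ) (D := D) v (t a) * c⁻¹ =
        rr Λ D T c1 * ofT (Λ := Λ) (D := D) v (t1 a) * (rr Λ D T c1)⁻¹ := h4.symm.trans h2
    have h6 := congrArg (prv _ (fun t : T => D t) v) h5
    simp only [map_mul, map_inv] at h6
    rw [prv_of, prv_of] at h6
    have h7 : t1 a = (prv _ (fun t : T => D t) v (rr Λ D T c1))⁻¹ *
        (prv _ (fun t : T => D t) v (rr Λ D T c1) * t1 a *
          (prv _ (fun t : T => D t) v (rr Λ D T c1))⁻¹) *
        prv _ (fun t : T => D t) v (rr Λ D T c1) := by group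
    rw [h7, ← h6, hq]
    group
  refine hH v k hk hv' t (c1 * GrP.of Λ D v q) fun a => ?_
  rw [h1, h3, map_mul, map_mul, map_inv]
  group

end res

section cyc

variable {G : Type} [Group G] {C : ∀ (G : Type) [Group G], Prop}

theorem C_MT_inner (hC : Closed C) {B : Type} [Group B] (b : B) (h : C B) :
    C (MT (MulAut.conj b)) :=
  mt_mem (MulAut.conj b) hC (k := 1) Nat.one_pos (n₀ := b) (pow_one _) h

/-- cyclic extensions from mapping tori -/
theorem C_sup_of_MT (hC : Closed C) {B : Subgroup G} {h : G} (τ : MulAut B)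
    (hτ : ∀ a : B, ((τ a : B) : G) = h * a * h⁻¹) (hB : C (MT τ)) : C ↥(B ⊔ Subgroup.zpowers h) := by
  obtain ⟨K, hK⟩ : ∃ K, K = B ⊔ Subgroup.zpowers h := ⟨_, rfl⟩
  rw [← hK]
  have hBK : B ≤ K := hK ▸ le_sup_left
  have hh : h ∈ K := hK ▸ Subgroup.mem_sup_right (Subgroup.mem_zpowers h)
  have hCB : C B := hC.of_injective _ _ (SemidirectProduct.inl : B →* MT τ)
    SemidirectProduct.inl_injective hB
  have hn : ∀ x ∈ K, ∀ b ∈ B, x * b * x⁻¹ ∈ B := by
    have h1 : K ≤ Subgroup.normalizer (B : Set G) := by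
      rw [hK]
      refine sup_le Subgroup.le_normalizer ?_
      rw [Subgroup.zpowers_le, Subgroup.mem_normalizer_iff]
      intro b
      constructor
      · intro hb
        have := (τ ⟨b, hb⟩).2
        rwa [hτ] at this
      · intro hb
        have h2 := hτ (τ.symm ⟨_, hb⟩)
        rw [MulEquiv.apply_symm_apply] at h2
        have h3 : b = ((τ.symm ⟨_, hb⟩ : B) : G) := by
          have h4 : h * b * h⁻¹ = h * ((τ.symm ⟨_, hb⟩ : B) : G) * h⁻¹ := h2
          exact mul_left_cancel (mul_right_cancel h4)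
        rw [h3]
        exact (τ.symm ⟨_, hb⟩).2
    intro x hx b hb
    exact (Subgroup.mem_normalizer_iff.1 (h1 hx) b).1 hb
  let f1 : B →* K := Subgroup.inclusion hBK
  let f2 : Multiplicative ℤ →* K := zpowersHom K ⟨h, hh⟩
  have hpow : ∀ (n : ℤ) (a : B), (((τ ^ n) a : B) : G) = h ^ n * a * (h ^ n)⁻¹ := by
    intro n
    induction n using Int.induction_on with
    | zero => intro a; simp
    | succ n ih =>
      intro a
      rw [zpow_add, zpow_one, MulAut.mul_apply, ih, hτ, zpow_add, zpow_one]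
      group
    | pred n ih =>
      intro a
      have hinv : ∀ a : B, (((τ⁻¹) a : B) : G) = h⁻¹ * a * h := by
        intro a
        have h1 := hτ (τ⁻¹ a)
        rw [show τ (τ⁻¹ a) = a from MulEquiv.apply_symm_apply τ a] at h1
        rw [h1]
        group
      rw [sub_eq_add_neg, zpow_add, zpow_neg_one, MulAut.mul_apply, ih, hinv, zpow_add,
        zpow_neg_one]
      group
  have hcompat : ∀ n, f1.comp (zpowersHom (MulAut B) τ n).toMonoidHom =
      (MulAut.conj (f2 n)).toMonoidHom.comp f1 := by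
    intro n
    apply MonoidHom.ext
    intro a
    apply Subtype.ext
    show (((zpowersHom (MulAut B) τ n) a : B) : G) = ((f2 n * f1 a * (f2 n)⁻¹ : K) : G)
    rw [zpowersHom_apply, hpow]
    rfl
  let F : MT τ →* K := SemidirectProduct.lift f1 f2 hcompat
  have hFv : ∀ x : MT τ, ((F x : K) : G) = (x.left : G) * h ^ (Multiplicative.toAdd x.right) := by
    intro x
    show (((f1 x.left) * (f2 x.right) : K) : G) = _
    rfl
  have hFs : Function.Surjective F := by
    rintro ⟨x, hx⟩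
    have h1 : K ≤ F.range.map K.subtype := by
      refine hK.le.trans (sup_le ?_ ?_)
      · intro b hb
        refine ⟨F (SemidirectProduct.inl ⟨b, hb⟩), ⟨_, rfl⟩, ?_⟩
        show ((F (SemidirectProduct.inl ⟨b, hb⟩) : K) : G) = b
        rw [hFv]
        show b * h ^ (0 : ℤ) = b
        rw [zpow_zero, mul_one]
      · rw [Subgroup.zpowers_le]
        refine ⟨F (SemidirectProduct.inr (Multiplicative.ofAdd 1)), ⟨_, rfl⟩, ?_⟩
        show ((F (SemidirectProduct.inr (Multiplicative.ofAdd 1)) : K) : G) = h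
        rw [hFv]
        show (1 : G) * h ^ (1 : ℤ) = h
        rw [zpow_one, one_mul]
    obtain ⟨y, ⟨z, hz⟩, hy⟩ := h1 hx
    exact ⟨z, by rw [hz]; exact Subtype.ext hy⟩
  by_cases hinj : Function.Injective F
  · exact Pool.Agent.R941.FJ.C_equiv hC (MulEquiv.ofBijective F ⟨hinj, hFs⟩).symm hB
  · rw [injective_iff_map_eq_one] at hinj
    push Not at hinj
    obtain ⟨x, hx1, hx2⟩ := hinj
    obtain ⟨n, hn0⟩ : ∃ n, n = Multiplicative.toAdd x.right := ⟨_, rfl⟩
    have h1 : (x.left : G) * h ^ n = 1 := by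
      rw [hn0, ← hFv, hx1]
      rfl
    have hne : n ≠ 0 := by
      intro h2
      rw [h2, zpow_zero, mul_one] at h1
      refine hx2 (SemidirectProduct.ext (Subtype.ext h1) ?_)
      have : Multiplicative.toAdd x.right = 0 := by rw [← hn0, h2]
      exact this
    have h3 : h ^ n ∈ B := by
      have h4 : h ^ n = (x.left : G)⁻¹ := (inv_eq_of_mul_eq_one_right h1).symm
      rw [h4]
      exact B.inv_mem x.left.2
    have hN : (B.subgroupOf K).Normal := by
      refine ⟨fun b hb g => ?_⟩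
      rw [Subgroup.mem_subgroupOf] at hb ⊢
      exact hn g g.2 b hb
    have hfo : IsOfFinOrder (QuotientGroup.mk' (B.subgroupOf K) ⟨h, hh⟩) := by
      rw [isOfFinOrder_iff_zpow_eq_one]
      refine ⟨n, hne, ?_⟩
      rw [← map_zpow]
      refine (QuotientGroup.eq_one_iff _).2 ?_
      rw [Subgroup.mem_subgroupOf]
      exact h3
    have hfin : Finite (K ⧸ B.subgroupOf K) := by
      have h5 : Finite (Subgroup.zpowers (QuotientGroup.mk' (B.subgroupOf K) ⟨h, hh⟩)) :=
        (finite_zpowers.2 hfo).to_subtype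
      refine Finite.of_surjective (fun y : Subgroup.zpowers (QuotientGroup.mk' (B.subgroupOf K)
        ⟨h, hh⟩) => (y : K ⧸ B.subgroupOf K)) ?_
      intro q
      obtain ⟨y, rfl⟩ := QuotientGroup.mk'_surjective _ q
      obtain ⟨z, rfl⟩ := hFs y
      refine ⟨⟨_, ?_⟩, rfl⟩
      have h6 : F z = f1 z.left * f2 z.right := rfl
      rw [h6, map_mul]
      have h7 : QuotientGroup.mk' (B.subgroupOf K) (f1 z.left) = 1 :=
        (QuotientGroup.eq_one_iff _).2 (Subgroup.mem_subgroupOf.2 z.left.2)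
      rw [h7, one_mul]
      exact ⟨Multiplicative.toAdd z.right, (map_zpow _ _ _).symm⟩
    have hfi : (B.subgroupOf K).FiniteIndex := Subgroup.finiteIndex_of_finite_quotient
    exact hC.finiteIndex _ _ hfi (Pool.Agent.R941.FJ.C_equiv hC (Subgroup.subgroupOfEquivOfLe hBK) hCB)

end cyc

end Pool.Agent.Helper30K9.FJ2
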