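import Pool.Agent.Helper30K9.FJ.Main

/-!
# Automorphisms of graph products which permute the conjugacy classes of the vertex groups
-/

set_option autoImplicit false

namespace Pool.Agent.Helper30K9.FJ2

open Pool.Agent.Y110.FJ
open Pool.Agent.Y462.SS (Closed)
open Pool.Agent.R630.FJ (MT)
open Pool.Agent.Helper30K9.FJ

section ret

variable {V : Type} (Λ : SimpleGraph V) (D : V → Type) [∀ v, Group (D v)] (T : Set V)

/-- the graph product over `T` -/
abbrev GT : Type := GrP (Λ.comap (Subtype.val : T → V)) (fun t : T => D t)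

open Classical in
/-- the retraction to the graph product over `T` -/
noncomputable def rr : GrP Λ D →* GT Λ D T :=
  glift Λ D (fun v => if h : v ∈ T then
    GrP.of (Λ.comap (Subtype.val : T → V)) (fun t : T => D t) ⟨v, h⟩ else 1) (by
    intro v w a b h
    by_cases hv : v ∈ T
    · by_cases hw : w ∈ T
      · rw [dif_pos hv, dif_pos hw]
        exact of_comm (Λ := Λ.comap (Subtype.val : T → V)) (D := fun t : T => D t)
          (v := ⟨v, hv⟩) (w := ⟨w, hw⟩) h a b
      · rw [dif_neg hw, MonoidHom.one_apply, mul_one, one_mul]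
    · rw [dif_neg hv, MonoidHom.one_apply, mul_one, one_mul])

/-- the section -/
noncomputable def ss : GT Λ D T →* GrP Λ D :=
  glift _ _ (fun t : T => GrP.of Λ D t) (fun s t a b h =>
    of_comm (Λ := Λ) (D := D) (v := (s : V)) (w := (t : V)) h a b)

variable {Λ D T}

/-- the vertex groups of the graph product over `T` -/
abbrev ofT (t : T) (a : D t) : GT Λ D T :=
  GrP.of (Λ.comap (Subtype.val : T → V)) (fun t : T => D t) t a

theorem rr_mem {v : V} (hv : v ∈ T) (a : D v) :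
    rr Λ D T (GrP.of Λ D v a) = ofT (Λ := Λ) (D := D) ⟨v, hv⟩ a := by
  rw [rr, glift_of, dif_pos hv]

theorem rr_not {v : V} (hv : v ∉ T) (a : D v) : rr Λ D T (GrP.of Λ D v a) = 1 := by
  rw [rr, glift_of, dif_neg hv]
  rfl

theorem ss_of (t : T) (a : D t) : ss Λ D T (ofT (Λ := Λ) (D := D) t a) = GrP.of Λ D t a := by
  rw [ss, glift_of]

theorem rr_ss (x : GT Λ D T) : rr Λ D T (ss Λ D T x) = x := by
  have h : (rr Λ D T).comp (ss Λ D T) = MonoidHom.id _ := by
    apply ghom_ext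
    intro t a
    show rr Λ D T (ss Λ D T (ofT (Λ := Λ) (D := D) t a)) = ofT (Λ := Λ) (D := D) t a
    rw [ss_of, rr_mem t.2]
  exact DFunLike.congr_fun h x

end ret

section perm

variable {V : Type} {Λ : SimpleGraph V} {D : V → Type} [∀ v, Group (D v)]

/-- `σ` maps the vertex groups to conjugates of the vertex groups, as `π` does with the vertices -/
def CP (σ : MulAut (GrP Λ D)) (π : Equiv.Perm V) : Prop :=
  ∀ v w, π v = w → ∃ (c : GrP Λ D) (t : D v ≃* D w), ∀ a,
    σ (GrP.of Λ D v a) = c * GrP.of Λ D w (t a) * c⁻¹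

theorem CP_one : CP (1 : MulAut (GrP Λ D)) 1 := by
  intro v w h
  have h' : v = w := h
  subst h'
  exact ⟨1, MulEquiv.refl _, fun a => by simp⟩

theorem CP_mul {σ σ' : MulAut (GrP Λ D)} {π π' : Equiv.Perm V} (h : CP σ π) (h' : CP σ' π') :
    CP (σ * σ') (π * π') := by
  intro v w hvw
  obtain ⟨c, t, h1⟩ := h' v (π' v) rfl
  obtain ⟨c', t', h2⟩ := h (π' v) w hvw
  refine ⟨σ c * c', t.trans t', fun a => ?_⟩
  rw [MulAut.mul_apply, h1, map_mul, map_mul, map_inv, h2]
  rw [MulEquiv.trans_apply]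
  group

theorem CP_inv {σ : MulAut (GrP Λ D)} {π : Equiv.Perm V} (h : CP σ π) : CP σ⁻¹ π⁻¹ := by
  intro v w hvw
  have hwv : π w = v := by rw [← hvw]; exact π.apply_symm_apply v
  obtain ⟨c, t, h1⟩ := h w v hwv
  refine ⟨σ⁻¹ c⁻¹, t.symm, fun a => ?_⟩
  apply σ.injective
  have h2 : ∀ x, σ (σ⁻¹ x) = x := fun x => MulEquiv.apply_symm_apply σ x
  rw [h2, map_mul, map_mul, h1, MulEquiv.apply_symm_apply]
  simp only [map_inv, h2]
  group

theorem CP_pow {σ : MulAut (GrP Λ D)} {π : Equiv.Perm V} (h : CP σ π) (n : ℕ) :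
    CP (σ ^ n) (π ^ n) := by
  induction n with
  | zero => exact CP_one
  | succ n ih => rw [pow_succ, pow_succ]; exact CP_mul ih h

theorem CP_zpow {σ : MulAut (GrP Λ D)} {π : Equiv.Perm V} (h : CP σ π) (n : ℤ) :
    CP (σ ^ n) (π ^ n) := by
  cases n with
  | ofNat n =>
    rw [Int.ofNat_eq_natCast, zpow_natCast, zpow_natCast]
    exact CP_pow h n
  | negSucc n =>
    rw [zpow_negSucc, zpow_negSucc]
    exact CP_inv (CP_pow h (n + 1))

/-- the automorphisms of vertex groups given by powers of `σ` have mapping tori in `C` -/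
def HC (C : ∀ (G : Type) [Group G], Prop) (σ : MulAut (GrP Λ D)) (π : Equiv.Perm V) : Prop :=
  ∀ (v : V) (k : ℕ), 0 < k → (π ^ k) v = v → ∀ (t : MulAut (D v)) (c : GrP Λ D),
    (∀ a, (σ ^ k) (GrP.of Λ D v a) = c * GrP.of Λ D v (t a) * c⁻¹) → C (MT t)

theorem HC_pow {C : ∀ (G : Type) [Group G], Prop} {σ : MulAut (GrP Λ D)} {π : Equiv.Perm V}
    (h : HC C σ π) {n : ℕ} (hn : 0 < n) : HC C (σ ^ n) (π ^ n) := by
  intro v k hk hv t c htc
  refine h v (n * k) (Nat.mul_pos hn hk) ?_ t c ?_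
  · rw [pow_mul]; exact hv
  · intro a
    rw [pow_mul]
    exact htc a

variable {T : Set V} {σ : MulAut (GrP Λ D)} {π : Equiv.Perm V}

theorem ker_inv (h : CP σ π) (hT : ∀ v, π v ∈ T → v ∈ T) (x : GrP Λ D) :
    rr Λ D T (σ x) = rr Λ D T (σ (ss Λ D T (rr Λ D T x))) := by
  have h1 : (rr Λ D T).comp σ.toMonoidHom =
      ((rr Λ D T).comp σ.toMonoidHom).comp ((ss Λ D T).comp (rr Λ D T)) := by
    apply ghom_ext
    intro v a
    show rr Λ D T (σ (GrP.of Λ D v a)) =
      rr Λ D T (σ (ss Λ D T (rr Λ D T (GrP.of Λ D v a))))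
    by_cases hv : v ∈ T
    · rw [rr_mem hv, ss_of]
    · obtain ⟨c, t, h1⟩ := h v _ rfl
      rw [rr_not hv, map_one, map_one, map_one, h1, map_mul, map_mul, rr_not (fun h2 => hv (hT v h2)),
        mul_one, ← map_mul, mul_inv_cancel, map_one]
  exact DFunLike.congr_fun h1 x

/-- the automorphism induced on the graph product over an invariant set of vertices -/
noncomputable def sT (h : CP σ π) (hT : ∀ v, π v ∈ T ↔ v ∈ T) : MulAut (GT Λ D T) :=
  MonoidHom.toMulEquiv (((rr Λ D T).comp σ.toMonoidHom).comp (ss Λ D T))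
    (((rr Λ D T).comp (σ⁻¹).toMonoidHom).comp (ss Λ D T))
    (by
      apply MonoidHom.ext
      intro x
      show rr Λ D T (σ⁻¹ (ss Λ D T (rr Λ D T (σ (ss Λ D T x))))) = x
      rw [← ker_inv (CP_inv h) (fun v => by
        intro hv
        rw [← hT] at hv
        rwa [show π (π⁻¹ v) = v from π.apply_symm_apply v] at hv),
        show σ⁻¹ (σ (ss Λ D T x)) = ss Λ D T x from MulEquiv.symm_apply_apply σ _, rr_ss])
    (by
      apply MonoidHom.ext
      intro x
      show rr Λ D T (σ (ss Λ D T (rr Λ D T (σ⁻¹ (ss Λ D T x))))) = x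
      rw [← ker_inv h (fun v => (hT v).1),
        show σ (σ⁻¹ (ss Λ D T x)) = ss Λ D T x from MulEquiv.apply_symm_apply σ _, rr_ss])

theorem sT_rr (h : CP σ π) (hT : ∀ v, π v ∈ T ↔ v ∈ T) (x : GrP Λ D) :
    sT h hT (rr Λ D T x) = rr Λ D T (σ x) :=
  (ker_inv h (fun v => (hT v).1) x).symm

end perm

end Pool.Agent.Helper30K9.FJ2
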