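import Pool.Agent.Helper30K9.FJ2.Res
import Pool.Agent.Helper30K9.FJ2.Ker

/-!
# Removing an invariant independent set of vertices
-/

set_option autoImplicit false

namespace Pool.Agent.Helper30K9.FJ2

open Pool.Agent.Y110.FJ
open Pool.Agent.Y462.SS (Closed)
open Pool.Agent.R630.FJ (MT)
open Pool.Agent.Helper30K9.FJ
open Pool.Agent.R684.FP (IsFreeProd FbC Pm main_all)

section gen

variable {C : ∀ (G : Type) [Group G], Prop}

theorem zpow_compat {A B : Type} [Group A] [Group B] (f : A →* B) (σ : MulAut A) (τ : MulAut B)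
    (h : ∀ x, f (σ x) = τ (f x)) (n : ℤ) (x : A) : f ((σ ^ n) x) = (τ ^ n) (f x) := by
  have h' : ∀ x, f (σ⁻¹ x) = τ⁻¹ (f x) := by
    intro x
    apply τ.injective
    rw [← h, show σ (σ⁻¹ x) = x from MulEquiv.apply_symm_apply σ x,
      show τ (τ⁻¹ (f x)) = f x from MulEquiv.apply_symm_apply τ _]
  induction n using Int.induction_on generalizing x with
  | zero => rw [zpow_zero, zpow_zero]; rfl
  | succ n ih => rw [zpow_add, zpow_add, zpow_one, zpow_one, MulAut.mul_apply, MulAut.mul_apply, ih, h]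
  | pred n ih =>
    rw [sub_eq_add_neg, zpow_add, zpow_add, zpow_neg_one, zpow_neg_one, MulAut.mul_apply,
      MulAut.mul_apply, ih, h']

/-- homomorphisms of mapping tori -/
noncomputable def MTmap {A B : Type} [Group A] [Group B] (f : A →* B) (σ : MulAut A) (τ : MulAut B)
    (h : ∀ x, f (σ x) = τ (f x)) : MT σ →* MT τ :=
  SemidirectProduct.map f (MonoidHom.id _) (by
    intro n
    apply MonoidHom.ext
    intro x
    show f (zpowersHom (MulAut A) σ n x) = zpowersHom (MulAut B) τ n (f x)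
    rw [zpowersHom_apply, zpowersHom_apply]
    exact zpow_compat f σ τ h _ x)

theorem MTmap_inj {A B : Type} [Group A] [Group B] (f : A →* B) (σ : MulAut A) (τ : MulAut B)
    (h : ∀ x, f (σ x) = τ (f x)) (hf : Function.Injective f) :
    Function.Injective (MTmap f σ τ h) := by
  rw [injective_iff_map_eq_one]
  intro x hx
  have h1 : f x.left = 1 := congrArg SemidirectProduct.left hx
  have h2 : x.right = 1 := congrArg SemidirectProduct.right hx
  exact SemidirectProduct.ext (hf (h1.trans (map_one f).symm)) h2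

theorem MT_cj {A : Type} [Group A] {σ : MulAut A} (g : MT σ) (x : A) :
    g * SemidirectProduct.inl x * g⁻¹ =
      SemidirectProduct.inl (g.left * (σ ^ (Multiplicative.toAdd g.right)) x * g.left⁻¹) := by
  obtain ⟨y, n⟩ := g
  have h1 : (⟨y, n⟩ : MT σ) = SemidirectProduct.inl y * SemidirectProduct.inr n :=
    (SemidirectProduct.inl_left_mul_inr_right (⟨y, n⟩ : MT σ)).symm
  have h2 : (SemidirectProduct.inr n : MT σ) * SemidirectProduct.inl x * (SemidirectProduct.inr n)⁻¹ =
      SemidirectProduct.inl ((σ ^ (Multiplicative.toAdd n)) x) := by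
    rw [← map_inv]
    have h3 := SemidirectProduct.inl_aut (φ := zpowersHom (MulAut A) σ) n x
    rw [zpowersHom_apply] at h3
    exact h3.symm
  have h4 : ∀ a b c : MT σ, a * b * c * (a * b)⁻¹ = a * (b * c * b⁻¹) * a⁻¹ := by
    intro a b c
    group
  show (⟨y, n⟩ : MT σ) * SemidirectProduct.inl x * (⟨y, n⟩ : MT σ)⁻¹ =
    SemidirectProduct.inl (y * (σ ^ (Multiplicative.toAdd n)) x * y⁻¹)
  rw [h1, h4, h2, ← map_inv, ← map_mul, ← map_mul]

/-- conjugation as an automorphism of a subgroup -/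
def nA {G : Type} [Group G] (B : Subgroup G) (g : G) (h : ∀ x, x ∈ B ↔ g * x * g⁻¹ ∈ B) : MulAut B where
  toFun b := ⟨g * b * g⁻¹, (h b).1 b.2⟩
  invFun b := ⟨g⁻¹ * b * g, (h _).2 (by
    have : g * (g⁻¹ * (b : G) * g) * g⁻¹ = b := by group
    rw [this]
    exact b.2)⟩
  left_inv b := by
    apply Subtype.ext
    show g⁻¹ * (g * b * g⁻¹) * g = (b : G)
    group
  right_inv b := by
    apply Subtype.ext
    show g * (g⁻¹ * b * g) * g⁻¹ = (b : G)
    group
  map_mul' a b := by
    apply Subtype.ext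
    show g * (a * b) * g⁻¹ = g * a * g⁻¹ * (g * b * g⁻¹)
    group

end gen

section step

variable {C : ∀ (G : Type) [Group G], Prop} {V : Type} {Λ : SimpleGraph V} {D : V → Type}
  [∀ v, Group (D v)] {T : Set V} {σ : MulAut (GrP Λ D)} {π : Equiv.Perm V}

theorem C_MT_s (hC : Closed C) (h : CP σ π) (hH : HC C σ π) (hD : ∀ v, C (D v)) (v : V) (k : ℕ)
    (s : MulAut (D v)) (c : GrP Λ D)
    (hs : ∀ a, (σ ^ k) (GrP.of Λ D v a) = c * GrP.of Λ D v (s a) * c⁻¹) : C (MT s) := by
  by_cases hv : (π ^ k) v = v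
  · rcases Nat.eq_zero_or_pos k with hk | hk
    · subst hk
      have h1 : s = MulAut.conj ((prv Λ D v c)⁻¹) := by
        ext a
        have h2 := congrArg (prv Λ D v) (hs a)
        rw [pow_zero, MulAut.one_apply, map_mul, map_mul, map_inv, prv_of, prv_of] at h2
        have h5 : s a = (prv Λ D v c)⁻¹ * (prv Λ D v c * s a * (prv Λ D v c)⁻¹) *
          ((prv Λ D v c)⁻¹)⁻¹ := by group
        rw [← h2] at h5
        rw [MulAut.conj_apply]
        exact h5
      rw [h1]
      exact C_MT_inner hC _ (hD v)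
    · exact hH v k hk hv s c hs
  · obtain ⟨c', t, h1⟩ := CP_pow h k v _ rfl
    have h2 : ∀ a, s a = 1 := by
      intro a
      have h3 := congrArg (prv Λ D v) (hs a)
      rw [h1, map_mul, map_mul, map_inv, prv_ne hv, mul_one, mul_inv_cancel, map_mul, map_mul,
        map_inv, prv_of] at h3
      have h4 : s a = (prv Λ D v c)⁻¹ * (prv Λ D v c * s a * (prv Λ D v c)⁻¹) * prv Λ D v c := by
        group
      rw [h4, ← h3]
      group
    have h5 : s = MulAut.conj 1 := by
      ext a
      rw [MulAut.conj_apply, one_mul, inv_one, mul_one, h2]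
      exact s.injective ((map_one s).trans (h2 a).symm)
    rw [h5]
    exact C_MT_inner hC _ (hD v)

variable (hcp : CP σ π) (hT : ∀ v, π v ∈ T ↔ v ∈ T)

/-- the projection of the mapping torus to the one over `T` -/
noncomputable def Mq : MT σ →* MT (sT hcp hT) :=
  MTmap (rr Λ D T) σ (sT hcp hT) (fun x => (sT_rr hcp hT x).symm)

theorem ker_Mq : (Mq hcp hT).ker = (rr Λ D T).ker.map (SemidirectProduct.inl : GrP Λ D →* MT σ) := by
  ext x
  constructor
  · intro hx
    have h1 : rr Λ D T x.left = 1 := congrArg SemidirectProduct.left hx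
    have h2 : x.right = 1 := congrArg SemidirectProduct.right hx
    exact ⟨x.left, h1, SemidirectProduct.ext rfl h2.symm⟩
  · rintro ⟨y, hy, rfl⟩
    exact SemidirectProduct.ext (show rr Λ D T y = 1 from hy) rfl

theorem zpow_not_mem (hT : ∀ v, π v ∈ T ↔ v ∈ T) (n : ℤ) (v : V) : (π ^ n) v ∈ T ↔ v ∈ T := by
  have h' : ∀ v, π⁻¹ v ∈ T ↔ v ∈ T := by
    intro v
    rw [← hT, show π (π⁻¹ v) = v from π.apply_symm_apply v]
  induction n using Int.induction_on generalizing v with
  | zero => rfl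
  | succ n ih =>
    rw [zpow_add, zpow_one, Equiv.Perm.mul_apply]
    exact (ih _).trans (hT v)
  | pred n ih =>
    rw [sub_eq_add_neg, zpow_add, zpow_neg_one, Equiv.Perm.mul_apply]
    exact (ih _).trans (h' v)

theorem step (hC : ClosedE C) (hF : FbC C) (hH : HC C σ π) (hD : ∀ v, C (D v))
    (hind : ∀ v w, v ∉ T → w ∉ T → ¬ Λ.Adj v w) (hq : C (MT (sT hcp hT))) : C (MT σ) := by
  have hQ : C (MT σ ⧸ (Mq hcp hT).ker) :=
    hC.base.of_injective _ _ (QuotientGroup.kerLift (Mq hcp hT))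
      (QuotientGroup.kerLift_injective _) hq
  have hA : IsFreeProd (Mq hcp hT).ker
      (Bj (T := T) (SemidirectProduct.inl : GrP Λ D →* MT σ)) := by
    rw [ker_Mq]
    exact free_prod hind _ SemidirectProduct.inl_injective
  refine main_all hC hF hQ _ Set.univ hA (fun i hi => absurd (Set.mem_univ i) hi) ?_ ?_
  · -- the permutation of the conjugacy classes
    rintro ⟨v, q⟩ - g
    obtain ⟨m, rfl⟩ := QuotientGroup.mk_surjective q
    obtain ⟨k, hk⟩ : ∃ k, k = Multiplicative.toAdd g.right := ⟨_, rfl⟩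
    have hw : (π ^ k) (v : V) ∉ T := fun h => v.2 ((zpow_not_mem hT k v).1 h)
    obtain ⟨c, t, h1⟩ := CP_zpow hcp k v _ rfl
    obtain ⟨z, hz⟩ : ∃ z, z = g.left * (σ ^ k) (ss Λ D T m) * c := ⟨_, rfl⟩
    have hn : (SemidirectProduct.inl (ss Λ D T (rr Λ D T z) * z⁻¹) : MT σ) ∈ (Mq hcp hT).ker := by
      rw [ker_Mq]
      refine ⟨_, ?_, rfl⟩
      show rr Λ D T (ss Λ D T (rr Λ D T z) * z⁻¹) = 1
      rw [map_mul, map_inv, rr_ss, mul_inv_cancel]
    have hkey : ∀ a, (SemidirectProduct.inl (ss Λ D T (rr Λ D T z) * z⁻¹) : MT σ) *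
        (g * SemidirectProduct.inl (io ⟨v, QuotientGroup.mk m⟩ a) * g⁻¹) *
        (SemidirectProduct.inl (ss Λ D T (rr Λ D T z) * z⁻¹) : MT σ)⁻¹ =
        SemidirectProduct.inl (io ⟨⟨(π ^ k) v, hw⟩, QuotientGroup.mk (rr Λ D T z)⟩ (t a)) := by
      intro a
      have h5 : g.left * (σ ^ k) (ss Λ D T m * GrP.of Λ D v a * (ss Λ D T m)⁻¹) * g.left⁻¹ =
          z * GrP.of Λ D _ (t a) * z⁻¹ := by
        rw [map_mul (σ ^ k), map_mul (σ ^ k), map_inv (σ ^ k), h1, hz]
        group
      rw [MT_cj, ← hk, io_mk, io_mk, h5,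
        ← map_inv (SemidirectProduct.inl : GrP Λ D →* MT σ), ← map_mul, ← map_mul]
      congr 1
      group
    refine ⟨⟨⟨(π ^ k) v, hw⟩, QuotientGroup.mk (rr Λ D T z)⟩, Set.mem_univ _, _, hn, fun x => ?_⟩
    constructor
    · rintro ⟨a, rfl⟩
      exact ⟨t a, (hkey a).symm⟩
    · rintro ⟨b, hb⟩
      refine ⟨t.symm b, ?_⟩
      have h2 := hkey (t.symm b)
      rw [MulEquiv.apply_symm_apply] at h2
      have h3 := h2.trans hb
      exact mul_left_cancel (mul_right_cancel (mul_left_cancel (mul_right_cancel h3)))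
  · -- the normalizers of the factors
    have hmain : ∀ (i : Ix Λ D T) (g : MT σ) (k : ℕ), Multiplicative.toAdd g.right = (k : ℤ) →
        (∀ x, x ∈ Bj (T := T) (SemidirectProduct.inl : GrP Λ D →* MT σ) i ↔
          g * x * g⁻¹ ∈ Bj (T := T) (SemidirectProduct.inl : GrP Λ D →* MT σ) i) →
        C ↥(Bj (T := T) (SemidirectProduct.inl : GrP Λ D →* MT σ) i ⊔ Subgroup.zpowers g) := by
      rintro ⟨v, q⟩ g k hk hg
      obtain ⟨m, rfl⟩ := QuotientGroup.mk_surjective q
      let i : Ix Λ D T := ⟨v, QuotientGroup.mk m⟩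
      let B := Bj (T := T) (SemidirectProduct.inl : GrP Λ D →* MT σ) i
      let e : D v ≃* B := MonoidHom.ofInjective
        (f := (SemidirectProduct.inl : GrP Λ D →* MT σ).comp (io i))
        (SemidirectProduct.inl_injective.comp (io_injective hind i))
      have he : ∀ a, ((e a : B) : MT σ) = SemidirectProduct.inl (io i a) := fun a => rfl
      let s : MulAut (D v) := (e.trans (nA B g hg)).trans e.symm
      have hs : ∀ a, e (s a) = nA B g hg (e a) := fun a => e.apply_symm_apply _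
      have hs' : ∀ a, io i (s a) = g.left * (σ ^ k) (io i a) * g.left⁻¹ := by
        intro a
        have h1 : ((e (s a) : B) : MT σ) = g * (e a : B) * g⁻¹ := by rw [hs]; rfl
        rw [he, he, MT_cj, hk, zpow_natCast] at h1
        exact SemidirectProduct.inl_injective h1
      have hsv : ∀ a, (σ ^ k) (GrP.of Λ D v a) =
          ((σ ^ k) (ss Λ D T m))⁻¹ * g.left⁻¹ * ss Λ D T m * GrP.of Λ D v (s a) *
          (((σ ^ k) (ss Λ D T m))⁻¹ * g.left⁻¹ * ss Λ D T m)⁻¹ := by
        intro a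
        have h1 := hs' a
        rw [io_mk, io_mk, map_mul, map_mul, map_inv] at h1
        have h2 : GrP.of Λ D v (s a) = (ss Λ D T m)⁻¹ *
            (ss Λ D T m * GrP.of Λ D v (s a) * (ss Λ D T m)⁻¹) * ss Λ D T m := by group
        rw [h2, h1]
        group
      have hMs : C (MT s) := C_MT_s hC.base hcp hH hD v k s _ hsv
      refine C_sup_of_MT hC.base (nA B g hg) (fun a => rfl) ?_
      refine hC.base.of_injective _ _ (MTmap e.symm.toMonoidHom (nA B g hg) s ?_)
        (MTmap_inj _ _ _ _ e.symm.injective) hMs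
      intro x
      show e.symm (nA B g hg x) = s (e.symm x)
      apply e.injective
      rw [hs, MulEquiv.apply_symm_apply, MulEquiv.apply_symm_apply]
    intro i _ g hg
    rcases le_total 0 (Multiplicative.toAdd g.right) with h0 | h0
    · obtain ⟨k, hk⟩ := Int.eq_ofNat_of_zero_le h0
      exact hmain i g k hk hg
    · obtain ⟨k, hk⟩ := Int.eq_ofNat_of_zero_le (neg_nonneg.2 h0)
      have h1 := hmain i g⁻¹ k (by
        rw [← hk]
        rfl) (by
        intro x
        have h2 := hg (g⁻¹ * x * g⁻¹⁻¹)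
        have h3 : g * (g⁻¹ * x * g⁻¹⁻¹) * g⁻¹ = x := by group
        rw [h3] at h2
        exact h2.symm)
      rwa [Subgroup.zpowers_inv] at h1

end step

end Pool.Agent.Helper30K9.FJ2
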